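import Pool.Agent.Helper69.UG.Defs

/-!
# UG: block M3: the function `1 * m`
-/

set_option autoImplicit false
open MeasureTheory Set Filter Topology
open Pool.Agent.Helper57.Zeta Pool.Agent.Helper57.LH Pool.Agent.Helper57.ED Pool.Agent.Helper54.LG

namespace Pool.Agent.Helper69.UG

lemma m3_cop {P : Finset ℕ} {a b : ℕ} (ha : ∀ p ∈ P, ¬ p ∣ a) (hb0 : b ≠ 0) (hb : b.primeFactors ⊆ P) :
    Nat.Coprime a b := by
  by_contra h
  obtain ⟨p, hp, h1, h2⟩ := Nat.Prime.not_coprime_iff_dvd.mp h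
  exact ha p (hb (Nat.mem_primeFactors.mpr ⟨hp, h2, hb0⟩)) h1

lemma m3_split (P : Finset ℕ) (hP : ∀ p ∈ P, p.Prime) : ∀ n : ℕ, n ≠ 0 → ∃ a b : ℕ, n = a * b ∧ a ≠ 0 ∧ b ≠ 0 ∧
    a.primeFactors ⊆ P ∧ ∀ p ∈ P, ¬ p ∣ b := by
  intro n
  induction n using induction_on_primes with
  | zero => intro h; exact absurd rfl h
  | one => intro _; exact ⟨1, 1, rfl, one_ne_zero, one_ne_zero, by simp, fun p hp h => (hP p hp).one_lt.ne' (Nat.dvd_one.mp h)⟩
  | prime_mul q a hq ih =>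
    intro h
    have ha : a ≠ 0 := fun h0 => h (by rw [h0, mul_zero])
    obtain ⟨x, y, hxy, hx0, hy0, hx, hy⟩ := ih ha
    by_cases hqP : q ∈ P
    · refine ⟨q * x, y, by rw [hxy, mul_assoc], mul_ne_zero hq.ne_zero hx0, hy0, ?_, hy⟩
      rw [Nat.primeFactors_mul hq.ne_zero hx0, hq.primeFactors]
      exact Finset.union_subset (Finset.singleton_subset_iff.mpr hqP) hx
    · refine ⟨x, q * y, by rw [hxy]; ring, hx0, mul_ne_zero hq.ne_zero hy0, hx, ?_⟩
      intro p hp hd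
      rcases (Nat.Prime.dvd_mul (hP p hp)).mp hd with h1 | h1
      · exact hqP (((Nat.prime_dvd_prime_iff_eq (hP p hp) hq).mp h1) ▸ hp)
      · exact hy p hp h1

lemma PR_prime {T c : ℝ} {p : ℕ} (hp : p ∈ PR T c) : p.Prime := by
  unfold PR at hp
  exact (Finset.mem_filter.mp hp).2.1

theorem gg_mul {T c : ℝ} {n₁ n₂ : ℕ} (h1 : n₁ ≠ 0) (h2 : n₂ ≠ 0) (hP1 : n₁.primeFactors ⊆ PR T c)
    (hP2 : ∀ p ∈ PR T c, ¬ p ∣ n₂) :
    gg T c (n₁ * n₂) = (∑ d ∈ n₁.divisors, mb T c d) * ∑ d ∈ n₂.divisors, ma T c d := by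
  classical
  have h12 : n₁ * n₂ ≠ 0 := mul_ne_zero h1 h2
  unfold gg mm
  rw [Finset.sum_sigma', Finset.sum_mul_sum, ← Finset.sum_product']
  have hz : ∀ s ∈ (n₁ * n₂).divisors.sigma (fun d => d.divisorsAntidiagonal),
      s ∉ ((n₁ * n₂).divisors.sigma (fun d => d.divisorsAntidiagonal)).filter (fun s => s.2.1 ∣ n₂ ∧ s.2.2 ∣ n₁) →
      ma T c s.2.1 * mb T c s.2.2 = 0 := by
    intro s hs hn
    by_contra h0
    apply hn
    rw [Finset.mem_filter]
    refine ⟨hs, ?_⟩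
    rw [Finset.mem_sigma, Nat.mem_divisors, Nat.mem_divisorsAntidiagonal] at hs
    obtain ⟨⟨hd, _⟩, he, he0⟩ := hs
    have hx0 : s.2.1 ≠ 0 := fun h => he0 (by rw [← he, h, zero_mul])
    have hy0 : s.2.2 ≠ 0 := fun h => he0 (by rw [← he, h, mul_zero])
    have ha : ma T c s.2.1 ≠ 0 := fun h => h0 (by rw [h, zero_mul])
    have hb : mb T c s.2.2 ≠ 0 := fun h => h0 (by rw [h, mul_zero])
    have ha' : ∀ p ∈ PR T c, ¬ p ∣ s.2.1 := by
      by_contra h
      exact ha (by unfold ma; rw [if_neg h])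
    have hb' : s.2.2.primeFactors ⊆ PR T c := by
      by_contra h
      exact hb (by unfold mb; rw [if_neg (fun h' => h h'.1)])
    constructor
    · exact (m3_cop ha' h1 hP1).dvd_of_dvd_mul_left (dvd_trans ⟨s.2.2, he.symm⟩ hd)
    · exact (m3_cop hP2 hy0 hb').symm.dvd_of_dvd_mul_right (dvd_trans ⟨s.2.1, by rw [mul_comm]; exact he.symm⟩ hd)
  rw [← Finset.sum_subset (Finset.filter_subset _ _) hz]
  symm
  refine Finset.sum_nbij' (fun x => ⟨x.2 * x.1, (x.2, x.1)⟩) (fun s => (s.2.2, s.2.1)) ?_ ?_ ?_ ?_ ?_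
  · intro x hx
    rw [Finset.mem_product, Nat.mem_divisors, Nat.mem_divisors] at hx
    obtain ⟨⟨hx1, _⟩, hx2, _⟩ := hx
    have hx0 : x.2 * x.1 ≠ 0 := by
      intro h
      have := mul_dvd_mul hx1 hx2
      rw [mul_comm x.1, h] at this
      exact h12 (zero_dvd_iff.mp this)
    simp only [Finset.mem_filter, Finset.mem_sigma, Nat.mem_divisors, Nat.mem_divisorsAntidiagonal]
    exact ⟨⟨⟨by rw [mul_comm x.2]; exact mul_dvd_mul hx1 hx2, h12⟩, trivial, hx0⟩, hx2, hx1⟩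
  · intro s hs
    simp only [Finset.mem_filter, Finset.mem_sigma, Nat.mem_divisors, Nat.mem_divisorsAntidiagonal] at hs
    rw [Finset.mem_product, Nat.mem_divisors, Nat.mem_divisors]
    exact ⟨⟨hs.2.2, h1⟩, hs.2.1, h2⟩
  · intro x _
    rfl
  · intro s hs
    simp only [Finset.mem_filter, Finset.mem_sigma, Nat.mem_divisors, Nat.mem_divisorsAntidiagonal] at hs
    obtain ⟨d, x, y⟩ := s
    simp only at hs ⊢
    rw [hs.1.2.1]
  · intro x _
    exact mul_comm _ _

lemma m3_ma {T c : ℝ} (hT : 1 < T) {d : ℕ} (hd0 : d ≠ 0) (hd : (d : ℝ) ≤ T ^ (1 / 32 : ℝ)) (hP : ∀ p ∈ PR T c, ¬ p ∣ d) :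
    ma T c d = (ArithmeticFunction.moebius d : ℝ) := by
  unfold ma
  rw [if_pos hP]
  have hL : 0 < Real.log T := Real.log_pos hT
  have h1 : Real.log d ≤ 1 / 32 * Real.log T := by
    rw [← Real.log_rpow (by linarith)]
    exact Real.log_le_log (by positivity) hd
  have h2 : 32 * Real.log d / Real.log T ≤ 1 := by
    rw [div_le_one hL]
    linarith
  rw [min_eq_left (by linarith), max_eq_right zero_le_one, mul_one]

lemma m3_mu (a : ℕ) : ∑ d ∈ a.divisors, (ArithmeticFunction.moebius d : ℝ) = if a = 1 then 1 else 0 := by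
  have h := congrArg (fun f : ArithmeticFunction ℤ => f a) ArithmeticFunction.coe_zeta_mul_moebius
  simp only [ArithmeticFunction.coe_zeta_mul_apply, ArithmeticFunction.one_apply] at h
  have h2 := congrArg (fun z : ℤ => (z : ℝ)) h
  push_cast at h2
  exact h2

theorem gg_gap {T c : ℝ} (hT : 1 < T) {n : ℕ} (hn : 1 < n) (hn2 : (n : ℝ) ≤ T ^ (1 / 32 : ℝ)) : gg T c n = 0 := by
  obtain ⟨a, b, hab, ha0, hb0, ha, hb⟩ := m3_split (PR T c) (fun p hp => PR_prime hp) n (by omega)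
  have hn0 : n ≠ 0 := by omega
  have hle : ∀ d : ℕ, d ∣ n → (d : ℝ) ≤ T ^ (1 / 32 : ℝ) := fun d hd =>
    le_trans (by exact_mod_cast Nat.le_of_dvd (by omega) hd) hn2
  rw [hab, gg_mul ha0 hb0 ha hb]
  have e1 : ∑ d ∈ a.divisors, mb T c d = if a = 1 then 1 else 0 := by
    have : ∀ d ∈ a.divisors, mb T c d = (ArithmeticFunction.moebius d : ℝ) := by
      intro d hd
      rw [Nat.mem_divisors] at hd
      unfold mb
      rw [if_pos ⟨(Nat.primeFactors_mono hd.1 ha0).trans ha, hle d (hd.1.trans ⟨b, hab⟩)⟩]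
    rw [Finset.sum_congr rfl this]
    exact m3_mu a
  have e2 : ∑ d ∈ b.divisors, ma T c d = if b = 1 then 1 else 0 := by
    have : ∀ d ∈ b.divisors, ma T c d = (ArithmeticFunction.moebius d : ℝ) := by
      intro d hd
      have hd' := Nat.mem_divisors.mp hd
      exact m3_ma hT (Nat.pos_of_mem_divisors hd).ne' (hle d (hd'.1.trans ⟨a, by rw [mul_comm]; exact hab⟩))
        (fun p hp h => hb p hp (h.trans hd'.1))
    rw [Finset.sum_congr rfl this]
    exact m3_mu b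
  rw [e1, e2]
  by_cases h : a = 1
  · have hb1 : b ≠ 1 := fun h' => hn.ne' (by rw [hab, h, h'])
    rw [if_neg hb1, mul_zero]
  · rw [if_neg h, zero_mul]

theorem gb_le {T c : ℝ} (n : ℕ) : |∑ d ∈ n.divisors, mb T c d| ≤ 2 ^ n.primeFactors.card := by
  classical
  rcases Nat.eq_zero_or_pos n with h0 | h0
  · subst h0
    simp
  have h1 : ∀ d ∈ n.divisors, |mb T c d| ≤ if Squarefree d then 1 else 0 := by
    intro d _
    unfold mb
    split_ifs with h h' h'
    · have := ArithmeticFunction.abs_moebius_le_one (n := d)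
      exact_mod_cast this
    · rw [ArithmeticFunction.moebius_eq_zero_of_not_squarefree h']
      simp
    · simp
    · simp
  refine (Finset.abs_sum_le_sum_abs _ _).trans ((Finset.sum_le_sum h1).trans ?_)
  rw [← Finset.sum_filter, Nat.sum_divisors_filter_squarefree h0.ne', Finset.sum_const, Finset.card_powerset]
  rw [nsmul_eq_mul, mul_one]
  have : (UniqueFactorizationMonoid.normalizedFactors n).toFinset = n.primeFactors := by
    rw [Nat.factors_eq]
    rfl
  rw [this]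
  push_cast
  exact le_rfl

end Pool.Agent.Helper69.UG
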